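import Mathlib

/-!
# The dimension of `R / IJ` in a Dedekind domain
-/

set_option autoImplicit false

namespace Pool.H26.ES

theorem ideg_mul {k R : Type} [Field k] [CommRing R] [IsDedekindDomain R]
    [Algebra k R] {I J : Ideal R} (hI : I ≠ ⊥) (hJ : J ≠ ⊥)
    (hfin : Module.Finite k (R ⧸ I * J)) :
    Module.finrank k (R ⧸ I * J) = Module.finrank k (R ⧸ I) + Module.finrank k (R ⧸ J) := by
  have hle : I * J ≤ I := Ideal.mul_le_inf.trans inf_le_left
  have hIJ : I * J ≠ 0 := mul_ne_zero hI hJ
  obtain ⟨a, ha⟩ := IsDedekindDomain.exists_sup_span_eq hle hIJ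
  have haI : a ∈ I := by
    rw [← ha]
    exact Ideal.mem_sup_right (Ideal.mem_span_singleton_self a)
  obtain ⟨K, hK⟩ : I ∣ Ideal.span {a} := by
    rw [Ideal.dvd_iff_le, Ideal.span_singleton_le_iff_mem]
    exact haI
  have hJK : J ⊔ K = ⊤ := by
    have h1 : I * (J ⊔ K) = I * ⊤ := by
      rw [Ideal.mul_sup, ← hK, ha, Ideal.mul_top]
    exact mul_left_cancel₀ hI h1
  -- multiplication by `a`
  let ψ : R →ₗ[k] (R ⧸ I * J) :=
    (Ideal.Quotient.mkₐ k (I * J)).toLinearMap.comp (LinearMap.mulRight k a)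
  let π : (R ⧸ I * J) →ₗ[k] (R ⧸ I) := (Ideal.Quotient.factorₐ k hle).toLinearMap
  have hπ : Function.Surjective π := Ideal.Quotient.factor_surjective hle
  have hker : LinearMap.ker ψ = J.restrictScalars k := by
    ext r
    rw [LinearMap.mem_ker]
    change Ideal.Quotient.mk (I * J) (r * a) = 0 ↔ r ∈ J
    rw [Ideal.Quotient.eq_zero_iff_mem]
    constructor
    · intro hr
      have h1 : Ideal.span {r} * K ≤ J := by
        have h2 : I * (Ideal.span {r} * K) ≤ I * J := by
          rw [mul_left_comm, ← hK, Ideal.span_singleton_mul_span_singleton,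
            Ideal.span_singleton_le_iff_mem]
          exact hr
        exact (mul_le_mul_iff_of_pos_left
          (by rw [Ideal.zero_eq_bot]; exact bot_lt_iff_ne_bot.mpr hI)).mp h2
      have h3 : Ideal.span {r} ≤ J := by
        calc Ideal.span {r} = Ideal.span {r} * (J ⊔ K) := by rw [hJK, Ideal.mul_top]
          _ = Ideal.span {r} * J ⊔ Ideal.span {r} * K := by rw [Ideal.mul_sup]
          _ ≤ J := sup_le (Ideal.mul_le_inf.trans inf_le_right) h1
      exact (Ideal.span_singleton_le_iff_mem _).mp h3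
    · intro hr
      rw [mul_comm r a]
      exact Ideal.mul_mem_mul haI hr
  have hrange : LinearMap.range ψ = LinearMap.ker π := by
    ext x
    constructor
    · rintro ⟨r, rfl⟩
      rw [LinearMap.mem_ker]
      change Ideal.Quotient.mk I (r * a) = 0
      rw [Ideal.Quotient.eq_zero_iff_mem]
      exact I.mul_mem_left _ haI
    · intro hx
      obtain ⟨y, rfl⟩ := Ideal.Quotient.mk_surjective x
      have hy : y ∈ I := by
        rw [LinearMap.mem_ker] at hx
        change Ideal.Quotient.mk I y = 0 at hx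
        exact Ideal.Quotient.eq_zero_iff_mem.mp hx
      rw [← ha] at hy
      obtain ⟨u, hu, v, hv, huv⟩ := Submodule.mem_sup.mp hy
      obtain ⟨r, rfl⟩ := Ideal.mem_span_singleton'.mp hv
      refine ⟨r, ?_⟩
      change Ideal.Quotient.mk (I * J) (r * a) = Ideal.Quotient.mk (I * J) y
      rw [← huv, map_add, Ideal.Quotient.eq_zero_iff_mem.mpr hu, zero_add]
  have h1 := LinearMap.finrank_range_add_finrank_ker π
  rw [← hrange, LinearMap.range_eq_top.mpr hπ, finrank_top] at h1
  have h2 : Module.finrank k (LinearMap.range ψ) = Module.finrank k (R ⧸ J) := by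
    rw [← LinearEquiv.finrank_eq ψ.quotKerEquivRange, hker]
    exact LinearEquiv.finrank_eq (Submodule.Quotient.restrictScalarsEquiv k J)
  omega

end Pool.H26.ES
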