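import Pool.Agent.H26.ES.Gap
import Pool.Agent.H26.ES.Mul

/-!
# The certificate from an ideal class of order `l`
-/

set_option autoImplicit false

open Pool.H93.OP

namespace Pool.H26.ES

variable {k R : Type} [Field k] [CommRing R] [IsDomain R] [Algebra k R] {dg : R → ℕ}

theorem ideg_mul' (h : OnePt k dg) [IsDedekindDomain R] {I J : Ideal R} (hI : I ≠ ⊥)
    (hJ : J ≠ ⊥) :
    Module.finrank k (R ⧸ I * J) = Module.finrank k (R ⧸ I) + Module.finrank k (R ⧸ J) :=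
  ideg_mul hI hJ (quo h (mul_ne_zero hI hJ)).1

theorem ideg_pow (h : OnePt k dg) [IsDedekindDomain R] {I : Ideal R} (hI : I ≠ ⊥) (n : ℕ) :
    Module.finrank k (R ⧸ I ^ n) = n * Module.finrank k (R ⧸ I) := by
  induction n with
  | zero =>
    rw [pow_zero, zero_mul, Ideal.one_eq_top]
    have : Subsingleton (R ⧸ (⊤ : Ideal R)) := Ideal.Quotient.subsingleton_iff.mpr rfl
    exact Module.finrank_zero_of_subsingleton
  | succ n ih =>
    rw [pow_succ, ideg_mul' h (pow_ne_zero n hI) hI, ih]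
    ring

/-- if `(a) = J * I` and `J ^ m = (b)` then `I ^ m = (c)` with `a ^ m = c * b` -/
theorem quot_pow [IsDedekindDomain R] {I J : Ideal R} {a b : R} (hb : b ≠ 0) {m : ℕ}
    (ha : Ideal.span {a} = J * I) (hJ : J ^ m = Ideal.span {b}) :
    ∃ c : R, a ^ m = c * b ∧ I ^ m = Ideal.span {c} := by
  have h1 : Ideal.span {a ^ m} = Ideal.span {b} * I ^ m := by
    rw [← Ideal.span_singleton_pow, ha, mul_pow, hJ]
  have h2 : a ^ m ∈ Ideal.span {b} := by
    have : a ^ m ∈ Ideal.span {b} * I ^ m := h1 ▸ Ideal.mem_span_singleton_self _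
    exact (Ideal.mul_le_inf.trans inf_le_left) this
  obtain ⟨c, hc⟩ := Ideal.mem_span_singleton'.mp h2
  refine ⟨c, hc.symm, ?_⟩
  have h3 : Ideal.span {b} * I ^ m = Ideal.span {b} * Ideal.span {c} := by
    rw [← h1, ← hc, Ideal.span_singleton_mul_span_singleton, mul_comm]
  exact mul_left_cancel₀ (by simpa using hb) h3

theorem cert (h : OnePt k dg) [IsDedekindDomain R] {c l : ℕ} (hc : ∀ m ∈ Gaps dg, m < c)
    (hl : 1 ≤ l) {I₀ : Ideal R} {φ₀ : R} (hφ₀ : φ₀ ≠ 0) (hI₀ : I₀ ^ l = Ideal.span {φ₀})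
    (hnp : ∀ a : R, I₀ ≠ Ideal.span {a}) :
    ∃ φ φ' η A B : R, Cert dg l φ φ' η A B ∧ dg φ ≤ (l + 1) ^ 2 * c ∧
      dg φ' ≤ (l + 1) ^ 2 * c ∧ dg η ≤ (l + 1) ^ 2 * c ∧ dg A ≤ (l + 1) ^ 2 * c ∧
      dg B ≤ (l + 1) ^ 2 * c := by
  have hI₀0 : I₀ ≠ ⊥ := by
    intro h0
    rw [h0, ← Ideal.zero_eq_bot, zero_pow (by omega), Ideal.zero_eq_bot] at hI₀
    exact hφ₀ (Ideal.span_singleton_eq_bot.mp hI₀.symm)
  have hl' : l - 1 + 1 = l := by omega
  -- step 1: an ideal with degree a gap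
  have hJ0 : I₀ ^ (l - 1) ≠ ⊥ := pow_ne_zero _ hI₀0
  have hJnp : ∀ a : R, I₀ ^ (l - 1) ≠ Ideal.span {a} := by
    intro b hb
    have h1 : Ideal.span {b} * I₀ = Ideal.span {φ₀} := by
      rw [← hb, ← pow_succ, hl', hI₀]
    have h2 : φ₀ ∈ Ideal.span {b} := by
      have : φ₀ ∈ Ideal.span {b} * I₀ := h1 ▸ Ideal.mem_span_singleton_self _
      exact (Ideal.mul_le_inf.trans inf_le_left) this
    obtain ⟨e, he⟩ := Ideal.mem_span_singleton'.mp h2
    have hb0 : b ≠ 0 := fun h0 => hφ₀ (by rw [← he, h0, mul_zero])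
    apply hnp e
    have h3 : Ideal.span {b} * I₀ = Ideal.span {b} * Ideal.span {e} := by
      rw [h1, ← he, Ideal.span_singleton_mul_span_singleton, mul_comm]
    exact mul_left_cancel₀ (by simpa using hb0) h3
  obtain ⟨a, haJ, ha0, d, hd, had⟩ := exists_gap h hJ0 hJnp
  obtain ⟨I, hI⟩ : I₀ ^ (l - 1) ∣ Ideal.span {a} := by
    rw [Ideal.dvd_iff_le, Ideal.span_singleton_le_iff_mem]
    exact haJ
  have hI0 : I ≠ ⊥ := by
    intro h0
    rw [h0, Ideal.mul_bot] at hI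
    exact ha0 (Ideal.span_singleton_eq_bot.mp hI)
  have hId : Module.finrank k (R ⧸ I) = d := by
    have h1 := finrank_principal h ha0
    rw [hI, ideg_mul' h hJ0 hI0] at h1
    omega
  obtain ⟨φ, hφa, hφ⟩ := quot_pow (m := l) (pow_ne_zero (l - 1) hφ₀) hI (by
    rw [← pow_mul, mul_comm, pow_mul, hI₀, Ideal.span_singleton_pow])
  have hφ0 : φ ≠ 0 := by
    intro h0
    rw [h0, zero_mul] at hφa
    exact pow_ne_zero _ ha0 hφa
  have hφd : dg φ = l * d := by
    rw [← finrank_principal h hφ0, ← hφ, ideg_pow h hI0, hId]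
  -- step 2: a second ideal
  have hle : I ^ l ≤ I ^ (l - 1) := Ideal.pow_le_pow_right (by omega)
  obtain ⟨b₀, hb₀⟩ := IsDedekindDomain.exists_sup_span_eq hle (pow_ne_zero l hI0)
  obtain ⟨q, hq⟩ := reduce h hc hφ0 (dg b₀) b₀ le_rfl
  set b := b₀ - q * φ with hb
  have hqφ : q * φ ∈ I ^ l := by
    rw [hφ]
    exact Ideal.mul_mem_left _ _ (Ideal.mem_span_singleton_self _)
  have hbb : I ^ l ⊔ Ideal.span {b} = I ^ (l - 1) := by
    rw [← hb₀]
    apply le_antisymm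
    · refine sup_le le_sup_left ((Ideal.span_singleton_le_iff_mem _).mpr ?_)
      rw [hb]
      exact sub_mem (Ideal.mem_sup_right (Ideal.mem_span_singleton_self _))
        (Ideal.mem_sup_left hqφ)
    · refine sup_le le_sup_left ((Ideal.span_singleton_le_iff_mem _).mpr ?_)
      have : b₀ = b + q * φ := by rw [hb]; ring
      rw [this]
      exact add_mem (Ideal.mem_sup_right (Ideal.mem_span_singleton_self _))
        (Ideal.mem_sup_left hqφ)
  have hd0 : d ≠ 0 := fun h0 => zero_not_gap h (h0 ▸ hd)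
  have hb0 : b ≠ 0 := by
    intro h0
    rw [h0, Ideal.span_singleton_eq_bot.mpr rfl, sup_bot_eq] at hbb
    have h1 := ideg_pow h hI0 l
    have h2 := ideg_pow h hI0 (l - 1)
    rw [hbb, h2, hId] at h1
    have h3 : (l - 1) * d < l * d := Nat.mul_lt_mul_of_pos_right (by omega) (by omega)
    omega
  have hbI : b ∈ I ^ (l - 1) := by
    rw [← hbb]
    exact Ideal.mem_sup_right (Ideal.mem_span_singleton_self _)
  obtain ⟨K, hK⟩ : I ^ (l - 1) ∣ Ideal.span {b} := by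
    rw [Ideal.dvd_iff_le, Ideal.span_singleton_le_iff_mem]
    exact hbI
  have hIK : I ⊔ K = ⊤ := by
    have h1 : I ^ (l - 1) * (I ⊔ K) = I ^ (l - 1) * ⊤ := by
      rw [Ideal.mul_sup, ← hK, ← pow_succ, hl', hbb, Ideal.mul_top]
    exact mul_left_cancel₀ (pow_ne_zero _ hI0) h1
  obtain ⟨φ', hφ'b, hφ'⟩ := quot_pow (m := l) (pow_ne_zero (l - 1) hφ0) hK (by
    rw [← pow_mul, mul_comm, pow_mul, hφ, Ideal.span_singleton_pow])
  have hφ'0 : φ' ≠ 0 := by
    intro h0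
    rw [h0, zero_mul] at hφ'b
    exact pow_ne_zero _ hb0 hφ'b
  have hcop : IsCoprime (Ideal.span {φ}) (Ideal.span {φ'}) := by
    rw [← hφ, ← hφ']
    exact IsCoprime.pow (Ideal.isCoprime_iff_sup_eq.mpr hIK)
  obtain ⟨A₀, B₀, hAB⟩ := (Ideal.isCoprime_span_singleton_iff _ _).mp hcop
  obtain ⟨q', hq'⟩ := reduce h hc hφ0 (dg B₀) B₀ le_rfl
  set B := B₀ - q' * φ with hB
  set A := A₀ + q' * φ' with hA
  have hAB' : A * φ + B * φ' = 1 := by rw [hA, hB, ← hAB]; ring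
  -- the degrees
  have hdc : d < c := hc d hd
  have e1 : dg φ ≤ l * c := by rw [hφd]; exact Nat.mul_le_mul_left _ hdc.le
  have e2 : dg b ≤ (l + 1) * c := by
    have : (l + 1) * c = l * c + c := by ring
    omega
  have e3 : dg B ≤ (l + 1) * c := by
    have : (l + 1) * c = l * c + c := by ring
    omega
  have e4 : dg φ' ≤ l * ((l + 1) * c) := by
    have hpow : ∀ (x : R), x ≠ 0 → ∀ n : ℕ, dg (x ^ n) = n * dg x := by
      intro x hx n
      induction n with
      | zero => rw [pow_zero, dg_one h, zero_mul]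
      | succ n ih => rw [pow_succ, h.mul _ _ (pow_ne_zero n hx) hx, ih]; ring
    have h1 := congrArg dg hφ'b
    rw [hpow b hb0, h.mul _ _ hφ'0 (pow_ne_zero _ hφ0)] at h1
    have h2 : l * dg b ≤ l * ((l + 1) * c) := Nat.mul_le_mul_left _ e2
    omega
  have e5 : dg A ≤ (l + 1) * c + l * ((l + 1) * c) := by
    by_cases hA0 : A = 0
    · rw [hA0, h.zero]
      omega
    · have h1 : A * φ = 1 - B * φ' := by rw [← hAB']; ring
      have h2 := congrArg dg h1
      rw [h.mul _ _ hA0 hφ0] at h2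
      have h3 := dg_sub h 1 (B * φ')
      rw [dg_one h] at h3
      have h4 : dg (B * φ') ≤ dg B + dg φ' := by
        by_cases hB0 : B = 0
        · rw [hB0, zero_mul, h.zero]
          omega
        · rw [h.mul _ _ hB0 hφ'0]
      omega
  have hD : (l + 1) * c + l * ((l + 1) * c) = (l + 1) ^ 2 * c := by ring
  have hD1 : l * c ≤ (l + 1) * c := Nat.mul_le_mul_right _ (by omega)
  refine ⟨φ, φ', b, A, B, ⟨?_, hAB', d, hd, hφd⟩, ?_, ?_, ?_, ?_, ?_⟩
  · exact hφ'b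
  all_goals omega

end Pool.H26.ES
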