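import Pool.Agent.H26.ES.End

/-!
# E1: final form
-/

set_option autoImplicit false

open Polynomial Pool.H93.OP

namespace Pool.H26.ES

theorem exists_pos {k R : Type} [Field k] [CommRing R] [IsDomain R] [Algebra k R] {dg : R → ℕ}
    (h : OnePt k dg) : ∃ t : R, 0 < dg t := by
  obtain ⟨c, hc⟩ := (gaps_fin h).bddAbove
  have h1 : c + 1 ∉ Gaps dg := fun h1 => by
    have := hc h1
    omega
  obtain ⟨a, _, ha⟩ := not_gaps.mp h1
  exact ⟨a, by omega⟩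

/-- **E1.** -/
theorem e1_of_norm {E R : Type} [Field E] [IsAlgClosed E] [CharZero E] [CommRing R] [IsDomain R]
    [Algebra E R] {dg : R → ℕ} (h : OnePt E dg) (hg : (Gaps dg).Nonempty)
    (hnorm : ∀ (t : R) (s : ℕ) (i₀ : Fin s) (e : Fin s → R) (Λ : Subring E)
      (P : Fin s → Fin s → Fin s → Λ[X]),
      HasTab E t e (fun i j l => (P i j l).map Λ.subtype) → e i₀ = 1 →
      ∃ b : Λ, b ≠ 0 ∧ ∀ (k : Type) [Field k] [IsAlgClosed k] (θ : Λ →+* k), θ b ≠ 0 →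
        ∀ (Rk : Type) [CommRing Rk] [IsDomain Rk] [Algebra k Rk] (tk : Rk) (ek : Fin s → Rk),
          HasTab k tk ek (fun i j l => (P i j l).map θ) → ek i₀ = 1 → IsIntegrallyClosed Rk) :
    ∃ l : ℕ, l.Prime ∧ 3 ≤ l ∧ ∃ φ φ' η A B : R, Cert dg l φ φ' η A B := by
  obtain ⟨l, hl1, hl⟩ := Nat.exists_infinite_primes ((Gaps dg).ncard + 3)
  obtain ⟨t, ht⟩ := exists_pos h
  refine ⟨l, hl, by omega, e1_aux h l hl ?_ t ht (hnorm t)⟩
  intro hdvd
  have h1 : 0 < (Gaps dg).ncard := (Set.ncard_pos (gaps_fin h)).mpr hg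
  have h2 := Nat.le_of_dvd h1 hdvd
  omega

end Pool.H26.ES
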