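import Pool.Agent.H26.ES.Sys
import Pool.Agent.H26.ES.Cer
import Pool.Agent.H93.OP.Fin
import Pool.Agent.H93.OP.Frob
import Pool.Agent.H63.EH.NS
import Pool.Agent.H63.EH.Chi
import Pool.Agent.H71.AS.Fin
import Pool.Agent.H71.AS.Noe

/-!
# The certificate in characteristic zero
-/

set_option autoImplicit false

open Polynomial Pool.H93.OP

namespace Pool.H26.ES

/-- **E1.** A one point ring with at least one gap, integrally closed, over an algebraically closed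
field of characteristic zero has the certificate, for every prime `l` which does not divide the number
of gaps. `hnorm` is the statement on the normality of the reductions (chapter T3). -/
theorem e1_aux {E R : Type} [Field E] [IsAlgClosed E] [CharZero E] [CommRing R] [IsDomain R]
    [Algebra E R] {dg : R → ℕ} (h : OnePt E dg) (l : ℕ) (hl : l.Prime)
    (hlg : ¬ l ∣ (Gaps dg).ncard) (t : R) (ht : 0 < dg t)
    (hnorm : ∀ (s : ℕ) (i₀ : Fin s) (e : Fin s → R) (Λ : Subring E)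
      (P : Fin s → Fin s → Fin s → Λ[X]),
      HasTab E t e (fun i j l => (P i j l).map Λ.subtype) → e i₀ = 1 →
      ∃ b : Λ, b ≠ 0 ∧ ∀ (k : Type) [Field k] [IsAlgClosed k] (θ : Λ →+* k), θ b ≠ 0 →
        ∀ (Rk : Type) [CommRing Rk] [IsDomain Rk] [Algebra k Rk] (tk : Rk) (ek : Fin s → Rk),
          HasTab k tk ek (fun i j l => (P i j l).map θ) → ek i₀ = 1 → IsIntegrallyClosed Rk) :
    ∃ φ φ' η A B : R, Cert dg l φ φ' η A B := by
  classical
  by_contra hno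
  obtain ⟨m, e, P, T, hT, he0, hcd, hΛ⟩ := t1 h t ht
  -- the ring of definition
  set Λ : Subring E := (Algebra.adjoin ℤ (T : Set E)).toSubring with hΛdef
  obtain ⟨PΛ, hPΛ, hk⟩ := hΛ Λ Algebra.subset_adjoin
  have hT' : HasTab E t e (fun i j l => (PΛ i j l).map Λ.subtype) := by
    have : (fun i j l => (PΛ i j l).map Λ.subtype) = P := by
      funext i j l
      exact hPΛ i j l
    rw [this]
    exact hT
  -- the bound of the gaps
  obtain ⟨c, hc⟩ : ∃ c, ∀ n ∈ Gaps dg, n < c := by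
    obtain ⟨c, hc⟩ := (gaps_fin h).bddAbove
    exact ⟨c + 1, fun n hn => Nat.lt_succ_of_le (hc hn)⟩
  set N := (l + 1) ^ 2 * c with hN
  -- the systems have no solution over `E`
  have hsys : ∀ q : Fin (dg t) × Fin (N + 1),
      ∃ b : Λ, b ≠ 0 ∧ ∀ (k : Type) [Field k] (χ : Λ →+* k), χ b ≠ 0 →
        (∃ d ∈ Gaps dg, dg t * (q.2 : ℕ) + m q.1 = l * d) →
        ∀ x : Unk (dg t) N → k, ∃ r, MvPolynomial.eval₂ χ x (Sys m PΛ ⟨0, ht⟩ l N q r) ≠ 0 := by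
    intro q
    by_cases hq : ∃ d ∈ Gaps dg, dg t * (q.2 : ℕ) + m q.1 = l * d
    · obtain ⟨d, hd, hqd⟩ := hq
      have hS : ∀ x : Unk (dg t) N → E, ∃ r,
          MvPolynomial.aeval x (Sys m PΛ ⟨0, ht⟩ l N q r) ≠ 0 := by
        intro x
        by_contra hcon
        push Not at hcon
        have h1 : ∀ r, MvPolynomial.eval₂ (Λ.subtype) x (Sys m PΛ ⟨0, ht⟩ l N q r) = 0 := hcon
        rw [sys_iff] at h1
        obtain ⟨e1, e2, e3, e4⟩ := h1
        exact hno (cert_of_sol h hT' he0 hcd hd hqd x e1 e2 e3 e4)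
      obtain ⟨b, hb, hbk⟩ := H63EH.ns (Λ := Λ) (E := E) (fun a a' haa => Subtype.ext haa)
        (Sys m PΛ ⟨0, ht⟩ l N q) hS
      exact ⟨b, hb, fun k _ χ hχ _ x => hbk k χ hχ x⟩
    · exact ⟨1, one_ne_zero, fun k _ χ _ hq' => absurd hq' hq⟩
  choose b hb hbk using hsys
  obtain ⟨b', hb', hbn⟩ := hnorm (dg t) ⟨0, ht⟩ e Λ PΛ hT' he0
  have hprod : b' * ∏ q, b q ≠ 0 := mul_ne_zero hb' (Finset.prod_ne_zero_iff.mpr fun q _ => hb q)
  have hft : Algebra.FiniteType ℤ Λ := by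
    have h1 : Algebra.FiniteType ℤ (Algebra.adjoin ℤ (T : Set E)) :=
      (Subalgebra.fg_iff_finiteType _).mp (Subalgebra.fg_adjoin_finset T)
    let ψ : (Algebra.adjoin ℤ (T : Set E)) →+* Λ := RingHom.id _
    exact Algebra.FiniteType.of_surjective (f := ψ.toIntAlgHom) (fun x => ⟨x, rfl⟩)
  obtain ⟨p, hp, χ, r, hlp, hχ, hr, hfr⟩ := H63EH.chi (b' * ∏ q, b q) hprod l
  rw [map_mul, map_prod] at hχ
  have hχb' : χ b' ≠ 0 := left_ne_zero_of_mul hχ
  have hχb : ∀ q, χ (b q) ≠ 0 := fun q =>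
    (Finset.prod_ne_zero_iff.mp (right_ne_zero_of_mul hχ)) q (Finset.mem_univ q)
  -- the reduction
  obtain ⟨Rk, _, _, _, dgk, tk, ek, hOP, hGk, hTk, hek0, hcdk, hσ⟩ := hk (AlgebraicClosure (ZMod p)) χ
  have hic : IsIntegrallyClosed Rk := hbn _ χ hχb' Rk tk ek hTk hek0
  have hno' : IsNoetherianRing Rk := Pool.Agent.H71.AS.noeth hOP
  have hdim : Ring.DimensionLEOne Rk := Pool.Agent.H71.AS.dimLE hOP
  have hded : IsDedekindDomain Rk := { }
  obtain ⟨F⟩ := nonempty_fr p r (fun σ hσθ => by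
    obtain ⟨S, h1, h2, _⟩ := hσ σ hσθ
    exact ⟨S, h1, h2⟩) hfr
  obtain ⟨I₀, hI₀, hnp, hpr⟩ := Pool.Agent.H71.AS.exists_class hOP p r hr F l hl (by omega)
    (by rw [hGk]; exact hlg)
  obtain ⟨φ₀, hφ₀⟩ := hpr
  have hφ₀' : I₀ ^ l = Ideal.span {φ₀} := hφ₀
  have hφ₀0 : φ₀ ≠ 0 := by
    rintro rfl
    rw [Ideal.span_singleton_eq_bot.mpr rfl] at hφ₀'
    exact pow_ne_zero l hI₀ hφ₀'
  obtain ⟨φ, φ', η, A, B, hC, b0, b1, b2, b3, b4⟩ := cert (c := c) hOP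
    (by rw [hGk]; exact hc) hl.one_lt.le hφ₀0 hφ₀' (fun a ha => hnp ⟨⟨a, ha⟩⟩)
  have hφ : φ ≠ 0 := by
    rintro rfl
    obtain ⟨_, _, d, hd, hdφ⟩ := hC
    rw [hOP.zero] at hdφ
    have hd0 : d = 0 := by
      rcases Nat.mul_eq_zero.mp hdφ.symm with h0 | h0
      · exact absurd h0 hl.ne_zero
      · exact h0
    exact zero_not_gap hOP (hd0 ▸ hd)
  obtain ⟨d, q, x, hd, hqd, e1, e2, e3, e4⟩ := sol_of_cert hOP hTk hek0 hcdk hC hφ b0 b1 b2 b3 b4
  obtain ⟨r', hr'⟩ := hbk q _ χ (hχb q) ⟨d, hGk ▸ hd, hqd⟩ x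
  exact hr' ((sys_iff χ x).mpr ⟨e1, e2, e3, e4⟩ r')

end Pool.H26.ES
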