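import Pool.Agent.H26.ES.E1
import Pool.Agent.H63.EH.Nrm

/-!
# E1 in the form used by the frame
-/

set_option autoImplicit false

open Polynomial Pool.H93.OP

namespace Pool.H26.ES

/-- **E1.** -/
theorem e1 {E R : Type} [Field E] [IsAlgClosed E] [CharZero E] [CommRing R] [IsDomain R]
    [IsIntegrallyClosed R] [Algebra E R] {dg : R → ℕ} (h : OnePt E dg)
    (hg : (Gaps dg).Nonempty) :
    ∃ l : ℕ, l.Prime ∧ 3 ≤ l ∧ ∃ φ φ' η A B : R, Cert dg l φ φ' η A B := by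
  refine e1_of_norm h hg ?_
  intro t s i₀ e Λ P hT he
  obtain ⟨b, hb, hbk⟩ := H63EH.nrm (Λ := Λ) (E := E) (R := R) (fun a a' haa => Subtype.ext haa)
    P t e hT inferInstance
  exact ⟨b, hb, fun k _ _ θ hθ Rk _ _ _ tk ek hTk _ => hbk k θ hθ Rk tk ek hTk⟩

/-- the statement `Pool.Agent.H82.NS.E1Prop` -/
theorem e1prop : ∀ (k R : Type) [Field k] [IsAlgClosed k] [CharZero k] [CommRing R] [IsDomain R]
    [IsIntegrallyClosed R] [Algebra k R] (dg : R → ℕ), OnePt k dg → (Gaps dg).Nonempty →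
    ∃ (l : ℕ) (f f' eta A B : R), l.Prime ∧ 3 ≤ l ∧ Cert dg l f f' eta A B := by
  intro k R _ _ _ _ _ _ _ dg h hg
  obtain ⟨l, hl, hl3, φ, φ', η, A, B, hC⟩ := e1 h hg
  exact ⟨l, φ, φ', η, A, B, hl, hl3, hC⟩

end Pool.H26.ES
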