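import Pool.Agent.H26.ES.Quo

/-!
# A gap as a degree in a class which is not principal
-/

set_option autoImplicit false

open Pool.H93.OP

namespace Pool.H26.ES

variable {k R : Type} [Field k] [CommRing R] [IsDomain R] [Algebra k R] {dg : R → ℕ}

theorem zero_not_gap (h : OnePt k dg) : 0 ∉ Gaps dg := by
  intro h0
  exact h0 1 one_ne_zero (dg_one h)

theorem finrank_le_dg (h : OnePt k dg) {J : Ideal R} {a : R} (haJ : a ∈ J) (ha : a ≠ 0) :
    Module.finrank k (R ⧸ J) ≤ dg a := by
  rw [← finrank_principal h ha]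
  exact finrank_le h (by simpa using ha) ((Ideal.span_singleton_le_iff_mem _).mpr haJ)

theorem eq_of_finrank_le (h : OnePt k dg) {J : Ideal R} {a : R} (haJ : a ∈ J) (ha : a ≠ 0)
    (hle : dg a ≤ Module.finrank k (R ⧸ J)) : J = Ideal.span {a} := by
  have hIJ : Ideal.span {a} ≤ J := (Ideal.span_singleton_le_iff_mem _).mpr haJ
  have hI : Ideal.span {a} ≠ ⊥ := by simpa using ha
  have hJ : J ≠ ⊥ := fun h0 => hI (le_bot_iff.mp (h0 ▸ hIJ))
  have hf1 := (quo h hI).1
  have hf2 := (quo h hJ).1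
  have heq : Module.finrank k (R ⧸ Ideal.span {a}) = Module.finrank k (R ⧸ J) :=
    le_antisymm (by rw [finrank_principal h ha]; exact hle) (finrank_le h hI hIJ)
  have hinj : Function.Injective (Ideal.Quotient.factorₐ k hIJ).toLinearMap :=
    (LinearMap.injective_iff_surjective_of_finrank_eq_finrank heq).mpr
      (Ideal.Quotient.factor_surjective hIJ)
  refine le_antisymm ?_ hIJ
  intro x hx
  have h1 : (Ideal.Quotient.factorₐ k hIJ).toLinearMap (Ideal.Quotient.mk _ x) = 0 := by
    change Ideal.Quotient.mk J x = 0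
    exact Ideal.Quotient.eq_zero_iff_mem.mpr hx
  have h2 := hinj (h1.trans (map_zero _).symm)
  exact Ideal.Quotient.eq_zero_iff_mem.mp h2

/-- If `J` is not principal, some `a ∈ J` has `dg a - dim R / J` a gap. -/
theorem exists_gap (h : OnePt k dg) {J : Ideal R} (hJ : J ≠ ⊥)
    (hnp : ∀ a : R, J ≠ Ideal.span {a}) :
    ∃ a ∈ J, a ≠ 0 ∧ ∃ d ∈ Gaps dg, dg a = Module.finrank k (R ⧸ J) + d := by
  by_contra hcon
  push Not at hcon
  set δ := Module.finrank k (R ⧸ J) with hδ
  have hsub : Set.Iio δ ∪ (fun m => δ + m) '' Gaps dg ⊆ (Val dg J)ᶜ := by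
    rintro m hm ⟨a, haJ, ha, rfl⟩
    have h1 := finrank_le_dg h haJ ha
    rcases hm with hm | ⟨n, hn, hmn⟩
    · simp only [Set.mem_Iio] at hm
      omega
    · exact hcon a haJ ha n hn hmn.symm
  have hcard : ((Val dg J)ᶜ).ncard = δ + (Gaps dg).ncard := by
    rw [ncard_compl h hJ, hδ, (quo h hJ).2, add_comm]
  have heq : Set.Iio δ ∪ (fun m => δ + m) '' Gaps dg = (Val dg J)ᶜ :=
    Set.eq_of_subset_of_ncard_le hsub (by rw [hcard, ncard_shift h]) (compl_fin h hJ)
  have hδV : δ ∈ Val dg J := by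
    by_contra hn
    have h1 : δ ∈ (Val dg J)ᶜ := hn
    rw [← heq] at h1
    rcases h1 with h1 | ⟨n, hn, hmn⟩
    · simp at h1
    · simp only at hmn
      have : n = 0 := by omega
      rw [this] at hn
      exact zero_not_gap h hn
  obtain ⟨a, haJ, ha, had⟩ := hδV
  exact hnp a (eq_of_finrank_le h haJ ha had.le)

/-- reduction modulo `φ` -/
theorem reduce (h : OnePt k dg) {c : ℕ} (hc : ∀ m ∈ Gaps dg, m < c) {φ : R} (hφ : φ ≠ 0) :
    ∀ (n : ℕ) (f : R), dg f ≤ n → ∃ q : R, dg (f - q * φ) ≤ dg φ + c := by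
  intro n
  induction n using Nat.strong_induction_on with
  | _ n ih =>
    intro f hf
    by_cases hle : dg f ≤ dg φ + c
    · exact ⟨0, by simpa using hle⟩
    · push Not at hle
      have hf0 : f ≠ 0 := ne_zero_of_lt h (n := 0) (by omega)
      have hng : dg f - dg φ ∉ Gaps dg := fun hg => by
        have := hc _ hg
        omega
      obtain ⟨q, hq, hqd⟩ := not_gaps.mp hng
      have hqφ : dg (q * φ) = dg f := by
        rw [h.mul _ _ hq hφ, hqd]
        omega
      obtain ⟨e, he | he⟩ := h.lead f (q * φ) hf0 (mul_ne_zero hq hφ) hqφ.symm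
      · refine ⟨e • q, ?_⟩
        rw [smul_mul_assoc, ← he, sub_self, h.zero]
        omega
      · obtain ⟨q', hq'⟩ := ih (dg (f - e • (q * φ))) (by omega) _ le_rfl
        refine ⟨e • q + q', ?_⟩
        have : f - (e • q + q') * φ = f - e • (q * φ) - q' * φ := by
          rw [add_mul, smul_mul_assoc]
          ring
        rw [this]
        exact hq'

end Pool.H26.ES
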