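import Pool.Agent.H26.ES.Quo

/-!
# Products in coordinates

`mulT P f g` are the coordinates of the product, `powT P i₀ f n` those of the power; they are
compatible with ring homomorphisms. The degree of `comb k t e f`.
-/

set_option autoImplicit false

open Polynomial Pool.H93.OP

namespace Pool.H26.ES

section
variable {A B : Type} [CommRing A] [CommRing B] {s : ℕ}

/-- the coordinates of a product -/
noncomputable def mulT (P : Fin s → Fin s → Fin s → A[X]) (f g : Fin s → A[X]) : Fin s → A[X] :=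
  fun l => ∑ i, ∑ j, f i * g j * P i j l

/-- the coordinates of a power -/
noncomputable def powT (P : Fin s → Fin s → Fin s → A[X]) (i₀ : Fin s) (f : Fin s → A[X]) :
    ℕ → Fin s → A[X]
  | 0 => Pi.single i₀ 1
  | n + 1 => mulT P (powT P i₀ f n) f

theorem mulT_map (ψ : A →+* B) (P : Fin s → Fin s → Fin s → A[X]) (f g : Fin s → A[X])
    (l : Fin s) : (mulT P f g l).map ψ =
      mulT (fun i j m => (P i j m).map ψ) (fun i => (f i).map ψ) (fun i => (g i).map ψ) l := by
  simp only [mulT, Polynomial.map_sum, Polynomial.map_mul]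

theorem powT_map (ψ : A →+* B) (P : Fin s → Fin s → Fin s → A[X]) (i₀ : Fin s)
    (f : Fin s → A[X]) (n : ℕ) (l : Fin s) : (powT P i₀ f n l).map ψ =
      powT (fun i j m => (P i j m).map ψ) i₀ (fun i => (f i).map ψ) n l := by
  induction n generalizing l with
  | zero =>
    simp only [powT]
    by_cases h : l = i₀
    · subst h
      simp
    · simp [Pi.single_eq_of_ne h]
  | succ n ih =>
    simp only [powT]
    rw [mulT_map]
    have : (fun i => (powT P i₀ f n i).map ψ)
        = powT (fun i j m => (P i j m).map ψ) i₀ (fun i => (f i).map ψ) n := funext ih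
    rw [this]

end

section
variable {k R : Type} [Field k] [CommRing R] [Algebra k R] {s : ℕ} {t : R} {e : Fin s → R}
  {P : Fin s → Fin s → Fin s → k[X]}

theorem comb_add (f g : Fin s → k[X]) : comb k t e (f + g) = comb k t e f + comb k t e g := by
  simp only [comb, Pi.add_apply, map_add, add_mul, Finset.sum_add_distrib]

theorem comb_sub (f g : Fin s → k[X]) : comb k t e (f - g) = comb k t e f - comb k t e g := by
  simp only [comb, Pi.sub_apply, map_sub, sub_mul, Finset.sum_sub_distrib]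

theorem comb_zero : comb k t e 0 = 0 := by simp [comb]

theorem comb_single (i₀ : Fin s) : comb k t e (Pi.single i₀ 1) = e i₀ := by
  rw [comb, Finset.sum_eq_single i₀]
  · simp
  · intro j _ hj
    simp [Pi.single_eq_of_ne hj]
  · simp

theorem comb_mulT (h : HasTab k t e P) (f g : Fin s → k[X]) :
    comb k t e (mulT P f g) = comb k t e f * comb k t e g := by
  have h1 : ∀ i j, aeval t (f i) * e i * (aeval t (g j) * e j)
      = ∑ l, aeval t (f i * g j * P i j l) * e l := by
    intro i j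
    calc aeval t (f i) * e i * (aeval t (g j) * e j)
        = aeval t (f i) * aeval t (g j) * (e i * e j) := by ring
      _ = aeval t (f i) * aeval t (g j) * ∑ l, aeval t (P i j l) * e l := by
          rw [h.mul]; rfl
      _ = ∑ l, aeval t (f i * g j * P i j l) * e l := by
          rw [Finset.mul_sum]
          refine Finset.sum_congr rfl fun l _ => ?_
          rw [map_mul, map_mul]
          ring
  simp only [comb, mulT]
  rw [Finset.sum_mul_sum]
  simp only [h1, map_sum, Finset.sum_mul]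
  rw [Finset.sum_comm]
  refine Finset.sum_congr rfl fun i _ => ?_
  rw [Finset.sum_comm]

theorem comb_powT (h : HasTab k t e P) {i₀ : Fin s} (he : e i₀ = 1) (f : Fin s → k[X]) (n : ℕ) :
    comb k t e (powT P i₀ f n) = comb k t e f ^ n := by
  induction n with
  | zero => rw [powT, comb_single, he, pow_zero]
  | succ n ih => rw [powT, comb_mulT h, ih, pow_succ]

end

section
variable {k R : Type} [Field k] [CommRing R] [IsDomain R] [Algebra k R] {dg : R → ℕ} {s : ℕ}
  {t : R} {e : Fin s → R}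

/-- expansion of `comb` in monomials -/
theorem comb_expand (f : Fin s → k[X]) (N : ℕ) (hf : ∀ j, (f j).natDegree ≤ N) :
    comb k t e f = ∑ q : Fin s × Fin (N + 1), (f q.1).coeff q.2 • (t ^ (q.2 : ℕ) * e q.1) := by
  rw [Fintype.sum_prod_type, comb]
  refine Finset.sum_congr rfl fun j _ => ?_
  rw [aeval_eq_sum_range' (n := N + 1) (by have := hf j; omega), Finset.sum_mul,
    Finset.sum_range]
  refine Finset.sum_congr rfl fun i _ => ?_
  rw [smul_mul_assoc]

/-- the degree of `comb k t e f` is the largest degree of a monomial which occurs -/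
theorem dg_comb (h : OnePt k dg) {m : Fin s → ℕ}
    (hinj : ∀ i j i' j', s * i + m j = s * i' + m j' → i = i' ∧ j = j')
    (ht : ∀ (i : ℕ) (j : Fin s), t ^ i * e j ≠ 0 ∧ dg (t ^ i * e j) = s * i + m j)
    (f : Fin s → k[X]) (hf : f ≠ 0) :
    comb k t e f ≠ 0 ∧ (∃ j i, (f j).coeff i ≠ 0 ∧ dg (comb k t e f) = s * i + m j) ∧
      ∀ j i, (f j).coeff i ≠ 0 → s * i + m j ≤ dg (comb k t e f) := by
  classical
  obtain ⟨N, hN⟩ : ∃ N, ∀ j, (f j).natDegree ≤ N :=
    ⟨∑ j, (f j).natDegree, fun j => Finset.single_le_sum (f := fun j => (f j).natDegree)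
      (fun _ _ => Nat.zero_le _) (Finset.mem_univ j)⟩
  rw [comb_expand f N hN]
  -- index by the degree
  set D : Fin s × Fin (N + 1) → ℕ := fun q => s * (q.2 : ℕ) + m q.1 with hD
  have hDinj : Function.Injective D := by
    rintro ⟨j, i⟩ ⟨j', i'⟩ hq
    obtain ⟨h1, h2⟩ := hinj _ _ _ _ hq
    exact Prod.ext h2 (Fin.ext h1)
  set inv : ℕ → Fin s × Fin (N + 1) → Prop := fun d q => D q = d with hinv
  have key : ∀ (g : Fin s × Fin (N + 1) → k), (∃ q, g q ≠ 0) →
      ∑ q, g q • (t ^ (q.2 : ℕ) * e q.1) ≠ 0 ∧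
      (∃ q, g q ≠ 0 ∧ dg (∑ q, g q • (t ^ (q.2 : ℕ) * e q.1)) = D q) := by
    intro g hg
    set S : Finset ℕ := Finset.univ.image D with hS
    set r : ℕ → R := fun d => if hd : ∃ q, D q = d then t ^ (hd.choose.2 : ℕ) * e hd.choose.1
      else 1 with hr
    set c : ℕ → k := fun d => if hd : ∃ q, D q = d then g hd.choose else 0 with hc
    have hchoose : ∀ q, ∀ hd : ∃ q', D q' = D q, hd.choose = q :=
      fun q hd => hDinj hd.choose_spec
    have hrD : ∀ q, r (D q) = t ^ (q.2 : ℕ) * e q.1 := by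
      intro q
      have hd : ∃ q', D q' = D q := ⟨q, rfl⟩
      simp only [hr, dif_pos hd, hchoose q hd]
    have hcD : ∀ q, c (D q) = g q := by
      intro q
      have hd : ∃ q', D q' = D q := ⟨q, rfl⟩
      simp only [hc, dif_pos hd, hchoose q hd]
    have hsum : ∑ d ∈ S, c d • r d = ∑ q, g q • (t ^ (q.2 : ℕ) * e q.1) := by
      rw [hS, Finset.sum_image (fun a _ b _ hab => hDinj hab)]
      refine Finset.sum_congr rfl fun q _ => ?_
      rw [hcD, hrD]
    obtain ⟨q₀, hq₀⟩ := hg
    obtain ⟨h1, d, hdS, hcd, hdd⟩ := dg_sum h r S (by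
      intro d hd
      obtain ⟨q, _, rfl⟩ := Finset.mem_image.mp hd
      rw [hrD]
      exact ht _ _) c ⟨D q₀, Finset.mem_image_of_mem _ (Finset.mem_univ _), by rw [hcD]; exact hq₀⟩
    rw [hsum] at h1 hdd
    obtain ⟨q, _, rfl⟩ := Finset.mem_image.mp hdS
    rw [hcD] at hcd
    exact ⟨h1, q, hcd, hdd⟩
  have hne : ∃ q : Fin s × Fin (N + 1), (f q.1).coeff q.2 ≠ 0 := by
    by_contra hcon
    push Not at hcon
    apply hf
    funext j
    ext i
    by_cases hi : i < N + 1
    · exact hcon (j, ⟨i, hi⟩)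
    · rw [coeff_eq_zero_of_natDegree_lt (by have := hN j; omega)]
      simp
  obtain ⟨h1, q, hq, hqd⟩ := key (fun q => (f q.1).coeff q.2) hne
  refine ⟨h1, ⟨q.1, q.2, hq, hqd⟩, ?_⟩
  intro j i hji
  have hi : i < N + 1 := by
    by_contra hcon
    exact hji (coeff_eq_zero_of_natDegree_lt (by have := hN j; omega))
  -- the part of degree larger than the degree of the sum vanishes
  by_contra hlt
  push Not at hlt
  set g' : Fin s × Fin (N + 1) → k := fun q' => (f q'.1).coeff q'.2 with hg'
  obtain ⟨qm, hqm1, hqm2⟩ : ∃ qm : Fin s × Fin (N + 1), g' qm ≠ 0 ∧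
      ∀ q', g' q' ≠ 0 → D q' ≤ D qm := by
    have hnef : (Finset.univ.filter (fun q' => g' q' ≠ 0)).Nonempty :=
      ⟨q, by simp [hg', hq]⟩
    obtain ⟨qm, hqm, hmax⟩ := Finset.exists_max_image _ D hnef
    exact ⟨qm, (Finset.mem_filter.mp hqm).2, fun q' hq' => hmax q' (by simp [hq'])⟩
  -- top term against the rest
  have hsplit : ∑ q' : Fin s × Fin (N + 1), g' q' • (t ^ (q'.2 : ℕ) * e q'.1)
      = g' qm • (t ^ (qm.2 : ℕ) * e qm.1) +
        ∑ q' ∈ Finset.univ.erase qm, g' q' • (t ^ (q'.2 : ℕ) * e q'.1) := by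
    exact (Finset.add_sum_erase Finset.univ
      (fun q' : Fin s × Fin (N + 1) => g' q' • (t ^ (q'.2 : ℕ) * e q'.1)) (Finset.mem_univ qm)).symm
  have hrest : ∀ u : Finset (Fin s × Fin (N + 1)), (∀ q' ∈ u, q' ≠ qm) → 0 < D qm →
      dg (∑ q' ∈ u, g' q' • (t ^ (q'.2 : ℕ) * e q'.1)) < D qm := by
    intro u hu hpos
    induction u using Finset.induction_on with
    | empty => simpa [h.zero] using hpos
    | insert q' u hq' ih =>
      rw [Finset.sum_insert hq']
      have h2 := h.add (g' q' • (t ^ (q'.2 : ℕ) * e q'.1))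
        (∑ q' ∈ u, g' q' • (t ^ (q'.2 : ℕ) * e q'.1))
      have h3 := ih (fun q'' hq'' => hu q'' (Finset.mem_insert_of_mem hq''))
      have h4 : dg (g' q' • (t ^ (q'.2 : ℕ) * e q'.1)) < D qm := by
        by_cases h0 : g' q' = 0
        · rw [h0, zero_smul, h.zero]
          exact hpos
        · rw [h.smul _ _ h0, (ht _ _).2]
          exact lt_of_le_of_ne (hqm2 q' h0) (fun heq => hu q' (Finset.mem_insert_self _ _)
            (hDinj heq))
      omega
  have hDji : D (j, ⟨i, hi⟩) ≤ D qm := hqm2 (j, ⟨i, hi⟩) hji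
  have hDji' : D (j, ⟨i, hi⟩) = s * i + m j := rfl
  have hpos : 0 < D qm := by omega
  have hdgtop : dg (∑ q' : Fin s × Fin (N + 1), g' q' • (t ^ (q'.2 : ℕ) * e q'.1)) = D qm := by
    rw [hsplit, dg_add_eq h, h.smul _ _ hqm1, (ht _ _).2]
    rw [h.smul _ _ hqm1, (ht _ _).2]
    exact hrest _ (fun q' hq' => Finset.ne_of_mem_erase hq') hpos
  have : dg (∑ q' : Fin s × Fin (N + 1), (f q'.1).coeff q'.2 • (t ^ (q'.2 : ℕ) * e q'.1))
      = D qm := hdgtop
  omega

end

end Pool.H26.ES
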