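import Pool.Agent.H93.OP.Defs

/-!
# One point rings: quotients by ideals

`R / J` is finite over `k` with dimension the number of values of `dg` which are not taken on `J`,
and `dim R / (a) = dg a`.
-/

set_option autoImplicit false

open Pool.H93.OP

namespace Pool.H26.ES

variable {k R : Type} [Field k] [CommRing R] [IsDomain R] [Algebra k R] {dg : R → ℕ}

theorem dg_neg (h : OnePt k dg) (a : R) : dg (-a) = dg a := by
  have := h.smul (-1) a (neg_ne_zero.mpr one_ne_zero)
  simpa using this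

theorem dg_sub (h : OnePt k dg) (a b : R) : dg (a - b) ≤ max (dg a) (dg b) := by
  have := h.add a (-b)
  rw [dg_neg h, ← sub_eq_add_neg] at this
  exact this

theorem dg_one (h : OnePt k dg) : dg (1 : R) = 0 := by
  have := h.mul 1 1 one_ne_zero one_ne_zero
  simp at this
  omega

theorem dg_add_eq (h : OnePt k dg) {a b : R} (hab : dg b < dg a) : dg (a + b) = dg a := by
  apply le_antisymm
  · have := h.add a b
    omega
  · have := dg_sub h (a + b) b
    rw [add_sub_cancel_right] at this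
    omega

theorem ne_zero_of_lt {a : R} {n : ℕ} (h : OnePt k dg) (ha : n < dg a) : a ≠ 0 := by
  rintro rfl
  rw [h.zero] at ha
  omega

/-- a sum of elements with different degrees -/
theorem dg_sum (h : OnePt k dg) (r : ℕ → R) (s : Finset ℕ) (hr : ∀ m ∈ s, r m ≠ 0 ∧ dg (r m) = m)
    (c : ℕ → k) (hc : ∃ m ∈ s, c m ≠ 0) :
    ∑ m ∈ s, c m • r m ≠ 0 ∧ ∃ m ∈ s, c m ≠ 0 ∧ dg (∑ m ∈ s, c m • r m) = m := by
  classical
  have hdgs : ∀ (u : Finset ℕ) (N : ℕ), (∀ m ∈ u, m ∈ s) → (∀ m ∈ u, m < N) →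
      (0 < N → dg (∑ m ∈ u, c m • r m) < N) ∧ (N = 0 → u = ∅) := by
    intro u N hus huN
    constructor
    · intro hN
      induction u using Finset.induction_on with
      | empty => simpa [h.zero] using hN
      | insert m u hm ih =>
        rw [Finset.sum_insert hm]
        have h1 := h.add (c m • r m) (∑ m ∈ u, c m • r m)
        have h2 := ih (fun m hm => hus m (Finset.mem_insert_of_mem hm))
          (fun m hm => huN m (Finset.mem_insert_of_mem hm))
        have h3 : dg (c m • r m) ≤ m := by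
          by_cases hcm : c m = 0
          · simp [hcm, h.zero]
          · rw [h.smul _ _ hcm, (hr m (hus m (Finset.mem_insert_self _ _))).2]
        have h4 := huN m (Finset.mem_insert_self _ _)
        omega
    · intro hN
      rw [Finset.eq_empty_iff_forall_notMem]
      intro m hm
      have := huN m hm
      omega
  set s' := s.filter (fun m => c m ≠ 0) with hs'
  have hne : s'.Nonempty := by
    obtain ⟨m, hm, hcm⟩ := hc
    exact ⟨m, by simp [hs', hm, hcm]⟩
  set M := s'.max' hne with hM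
  have hMs' : M ∈ s' := Finset.max'_mem _ _
  have hMs : M ∈ s := (Finset.mem_filter.mp hMs').1
  have hcM : c M ≠ 0 := (Finset.mem_filter.mp hMs').2
  have hsum : ∑ m ∈ s, c m • r m = c M • r M + ∑ m ∈ s'.erase M, c m • r m := by
    rw [Finset.add_sum_erase s' (fun m => c m • r m) hMs', hs', Finset.sum_filter]
    refine Finset.sum_congr rfl fun m _ => ?_
    split_ifs with h0
    · rfl
    · rw [not_not] at h0
      rw [h0, zero_smul]
  have hdM : dg (c M • r M) = M := by rw [h.smul _ _ hcM, (hr M hMs).2]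
  have hlt : ∀ m ∈ s'.erase M, m < M := by
    intro m hm
    have h1 := Finset.le_max' s' m (Finset.mem_of_mem_erase hm)
    have h2 := Finset.ne_of_mem_erase hm
    exact lt_of_le_of_ne h1 h2
  have hsub : ∀ m ∈ s'.erase M, m ∈ s := fun m hm =>
    (Finset.mem_filter.mp (Finset.mem_of_mem_erase hm)).1
  obtain ⟨hA, hB⟩ := hdgs (s'.erase M) M hsub hlt
  have hrM : c M • r M ≠ 0 := smul_ne_zero hcM (hr M hMs).1
  rcases Nat.eq_zero_or_pos M with h0 | h0
  · rw [hB h0, Finset.sum_empty, add_zero] at hsum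
    rw [hsum]
    exact ⟨hrM, M, hMs, hcM, hdM⟩
  · have h1 := hA h0
    have h2 : dg (∑ m ∈ s, c m • r m) = M := by
      rw [hsum, dg_add_eq h (by omega), hdM]
    refine ⟨ne_zero_of_lt h (n := 0) (by omega), M, hMs, hcM, h2⟩

/-- the values of `dg` on `J ∖ 0` -/
def Val (dg : R → ℕ) (J : Ideal R) : Set ℕ := {m | ∃ a ∈ J, a ≠ 0 ∧ dg a = m}

/-- the values of `dg` which are not taken on `J ∖ 0` -/
def New (dg : R → ℕ) (J : Ideal R) : Set ℕ := {m | m ∉ Gaps dg ∧ m ∉ Val dg J}

theorem not_gaps {m : ℕ} : m ∉ Gaps dg ↔ ∃ a : R, a ≠ 0 ∧ dg a = m := by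
  simp only [Gaps, Set.mem_setOf_eq, not_forall, not_not]
  constructor
  · rintro ⟨a, ha, h⟩
    exact ⟨a, ha, h⟩
  · rintro ⟨a, ha, h⟩
    exact ⟨a, ha, h⟩

theorem gaps_subset (J : Ideal R) : Gaps dg ⊆ (Val dg J)ᶜ := by
  intro m hm ⟨a, _, ha, h⟩
  exact hm a ha h

theorem compl_eq (J : Ideal R) : (Val dg J)ᶜ = Gaps dg ∪ New dg J := by
  ext m
  constructor
  · intro hm
    by_cases h : m ∈ Gaps dg
    · exact Or.inl h
    · exact Or.inr ⟨h, hm⟩
  · rintro (h | h)
    · exact gaps_subset J h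
    · exact h.2

theorem compl_subset (h : OnePt k dg) {J : Ideal R} {a : R} (ha : a ∈ J) (ha0 : a ≠ 0) :
    (Val dg J)ᶜ ⊆ Set.Iio (dg a) ∪ (fun m => dg a + m) '' Gaps dg := by
  intro m hm
  by_cases hlt : m < dg a
  · exact Or.inl hlt
  · push Not at hlt
    right
    refine ⟨m - dg a, ?_, by simp; omega⟩
    by_contra hng
    obtain ⟨b, hb, hbd⟩ := not_gaps.mp hng
    refine hm ⟨a * b, J.mul_mem_right _ ha, mul_ne_zero ha0 hb, ?_⟩
    rw [h.mul _ _ ha0 hb, hbd]
    omega

theorem gaps_fin (h : OnePt k dg) : (Gaps dg).Finite := h.gaps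

theorem compl_fin (h : OnePt k dg) {J : Ideal R} (hJ : J ≠ ⊥) : ((Val dg J)ᶜ).Finite := by
  obtain ⟨a, ha, ha0⟩ := Submodule.exists_mem_ne_zero_of_ne_bot hJ
  exact ((Set.finite_Iio _).union ((gaps_fin h).image _)).subset (compl_subset h ha ha0)

theorem new_fin (h : OnePt k dg) {J : Ideal R} (hJ : J ≠ ⊥) : (New dg J).Finite :=
  (compl_fin h hJ).subset fun _ hm => hm.2

theorem ncard_compl (h : OnePt k dg) {J : Ideal R} (hJ : J ≠ ⊥) :
    ((Val dg J)ᶜ).ncard = (Gaps dg).ncard + (New dg J).ncard := by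
  rw [compl_eq, Set.ncard_union_eq _ (gaps_fin h) (new_fin h hJ)]
  rw [Set.disjoint_left]
  intro m hm hm'
  exact hm'.1 hm

theorem val_principal (h : OnePt k dg) {a : R} (ha : a ≠ 0) :
    (Val dg (Ideal.span {a}))ᶜ = Set.Iio (dg a) ∪ (fun m => dg a + m) '' Gaps dg := by
  refine Set.Subset.antisymm (compl_subset h (Ideal.mem_span_singleton_self a) ha) ?_
  rintro m hm ⟨b, hb, hb0, rfl⟩
  obtain ⟨c, rfl⟩ := Ideal.mem_span_singleton'.mp hb
  have hc : c ≠ 0 := fun hc => hb0 (by simp [hc])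
  rw [h.mul _ _ hc ha] at hm
  rcases hm with hm | ⟨n, hn, hmn⟩
  · simp at hm
  · simp only at hmn
    have : n = dg c := by omega
    exact hn c hc this.symm

theorem ncard_shift (h : OnePt k dg) (δ : ℕ) :
    (Set.Iio δ ∪ (fun m => δ + m) '' Gaps dg).ncard = δ + (Gaps dg).ncard := by
  rw [Set.ncard_union_eq _ (Set.finite_Iio _) ((gaps_fin h).image _)]
  · rw [Set.ncard_image_of_injective _ (fun a b hab => by simpa using hab)]
    congr 1
    rw [← Nat.card_coe_set_eq]
    simp
  · rw [Set.disjoint_left]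
    rintro m hm ⟨n, _, hn⟩
    simp only [Set.mem_Iio] at hm
    simp only at hn
    omega

theorem ncard_principal (h : OnePt k dg) {a : R} (ha : a ≠ 0) :
    (New dg (Ideal.span {a})).ncard = dg a := by
  have h1 := ncard_compl h (J := Ideal.span {a}) (by simpa using ha)
  rw [val_principal h ha, ncard_shift h] at h1
  omega

/-- the classes of elements `r m` with `dg (r m) = m`, `m` new, span `R / J` -/
theorem span_new (h : OnePt k dg) {J : Ideal R} (r : ℕ → R)
    (hr : ∀ m ∈ New dg J, r m ≠ 0 ∧ dg (r m) = m) :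
    ∀ (n : ℕ) (f : R), dg f ≤ n → (Ideal.Quotient.mk J f) ∈
      Submodule.span k ((fun m => Ideal.Quotient.mk J (r m)) '' New dg J) := by
  intro n
  induction n using Nat.strong_induction_on with
  | _ n ih =>
    intro f hf
    by_cases hf0 : f = 0
    · rw [hf0, map_zero]
      exact Submodule.zero_mem _
    have hstep : ∀ b : R, b ≠ 0 → dg b = dg f →
        (Ideal.Quotient.mk J b) ∈
          Submodule.span k ((fun m => Ideal.Quotient.mk J (r m)) '' New dg J) →
        (Ideal.Quotient.mk J f) ∈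
          Submodule.span k ((fun m => Ideal.Quotient.mk J (r m)) '' New dg J) := by
      intro b hb hbf hmem
      obtain ⟨c, hc | hc⟩ := h.lead f b hf0 hb hbf.symm
      · rw [hc]
        have : Ideal.Quotient.mk J (c • b) = c • Ideal.Quotient.mk J b := rfl
        rw [this]
        exact Submodule.smul_mem _ _ hmem
      · have h1 := ih (dg (f - c • b)) (by omega) (f - c • b) le_rfl
        have h2 : Ideal.Quotient.mk J f = Ideal.Quotient.mk J (f - c • b)
            + c • Ideal.Quotient.mk J b := by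
          have : c • Ideal.Quotient.mk J b = Ideal.Quotient.mk J (c • b) := rfl
          rw [this, ← map_add, sub_add_cancel]
        rw [h2]
        exact Submodule.add_mem _ h1 (Submodule.smul_mem _ _ hmem)
    by_cases hV : dg f ∈ Val dg J
    · obtain ⟨a, haJ, ha0, had⟩ := hV
      refine hstep a ha0 had ?_
      rw [Ideal.Quotient.eq_zero_iff_mem.mpr haJ]
      exact Submodule.zero_mem _
    · have hN : dg f ∈ New dg J := ⟨not_gaps.mpr ⟨f, hf0, rfl⟩, hV⟩
      exact hstep (r (dg f)) (hr _ hN).1 (hr _ hN).2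
        (Submodule.subset_span ⟨dg f, hN, rfl⟩)

theorem linInd_new (h : OnePt k dg) {J : Ideal R} (r : ℕ → R)
    (hr : ∀ m ∈ New dg J, r m ≠ 0 ∧ dg (r m) = m) :
    LinearIndependent k (fun m : New dg J => Ideal.Quotient.mk J (r m)) := by
  classical
  rw [linearIndependent_iff']
  intro s g hs i hi
  by_contra hgi
  set c : ℕ → k := fun m => if hm : m ∈ New dg J then g ⟨m, hm⟩ else 0 with hc
  have hcg : ∀ m : New dg J, c m = g m := fun m => by simp [hc]
  have hsum : ∑ m ∈ s.map (Function.Embedding.subtype _), c m • r m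
      = ∑ m ∈ s, g m • r m := by
    rw [Finset.sum_map]
    refine Finset.sum_congr rfl fun m _ => ?_
    simp only [Function.Embedding.coe_subtype]
    rw [hcg m]
  obtain ⟨hne, m, hm, _, hmd⟩ := dg_sum h r (s.map (Function.Embedding.subtype _))
    (fun m hm => by
      obtain ⟨m', _, rfl⟩ := Finset.mem_map.mp hm
      exact hr _ m'.2) c ⟨i, Finset.mem_map.mpr ⟨i, hi, rfl⟩, by rw [hcg i]; exact hgi⟩
  obtain ⟨m', _, rfl⟩ := Finset.mem_map.mp hm
  have hmem : ∑ m ∈ s.map (Function.Embedding.subtype _), c m • r m ∈ J := by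
    rw [← Ideal.Quotient.eq_zero_iff_mem, hsum, map_sum, ← hs]
    rfl
  exact m'.2.2 ⟨_, hmem, hne, hmd⟩

theorem quo (h : OnePt k dg) {J : Ideal R} (hJ : J ≠ ⊥) :
    Module.Finite k (R ⧸ J) ∧ Module.finrank k (R ⧸ J) = (New dg J).ncard := by
  classical
  have hex : ∀ m : ℕ, ∃ a : R, m ∈ New dg J → a ≠ 0 ∧ dg a = m := by
    intro m
    by_cases hm : m ∈ New dg J
    · obtain ⟨a, ha⟩ := not_gaps.mp hm.1
      exact ⟨a, fun _ => ha⟩
    · exact ⟨0, fun h => absurd h hm⟩
  choose r hr using hex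
  have hli := linInd_new h r hr
  have hspan : ⊤ ≤ Submodule.span k (Set.range (fun m : New dg J => Ideal.Quotient.mk J (r m))) := by
    intro x _
    obtain ⟨f, rfl⟩ := Ideal.Quotient.mk_surjective x
    have h1 := span_new h r hr (dg f) f le_rfl
    rw [Set.image_eq_range] at h1
    exact h1
  have hfin : Finite (New dg J) := (new_fin h hJ).to_subtype
  have b := Module.Basis.mk hli hspan
  refine ⟨Module.Finite.of_basis b, ?_⟩
  rw [Module.finrank_eq_nat_card_basis b]
  rfl

theorem finrank_principal (h : OnePt k dg) {a : R} (ha : a ≠ 0) :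
    Module.finrank k (R ⧸ Ideal.span {a}) = dg a := by
  rw [(quo h (by simpa using ha)).2, ncard_principal h ha]

theorem finrank_le (h : OnePt k dg) {I J : Ideal R} (hI : I ≠ ⊥) (hIJ : I ≤ J) :
    Module.finrank k (R ⧸ J) ≤ Module.finrank k (R ⧸ I) := by
  have := (quo h hI).1
  exact LinearMap.finrank_le_finrank_of_surjective
    (f := (Ideal.Quotient.factorₐ k hIJ).toLinearMap) (Ideal.Quotient.factor_surjective hIJ)

end Pool.H26.ES
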