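import Pool.Agent.H26.ES.Gen

/-!
# The certificate as a system of polynomial equations

Unknowns: the coefficients of the coordinates of `φ, φ', η, A, B` (`a = 0, 1, 2, 3, 4`) up to `t`-degree
`N`, and one more unknown for the inverse of the leading coefficient of `φ`.
-/

set_option autoImplicit false

open Polynomial Pool.H93.OP

namespace Pool.H26.ES

/-- the index set of the unknowns -/
abbrev Unk (s N : ℕ) : Type := (Fin 5 × Fin s × Fin (N + 1)) ⊕ Unit

/-- the coordinates of the unknown element number `a` -/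
noncomputable def vec {A : Type} [CommRing A] {s N : ℕ} (x : Unk s N → A) (a : Fin 5) :
    Fin s → A[X] :=
  fun j => ∑ i : Fin (N + 1), C (x (Sum.inl (a, j, i))) * X ^ (i : ℕ)

theorem vec_map {A B : Type} [CommRing A] [CommRing B] {s N : ℕ} (ψ : A →+* B)
    (x : Unk s N → A) (a : Fin 5) (j : Fin s) : (vec x a j).map ψ = vec (fun u => ψ (x u)) a j := by
  simp only [vec, Polynomial.map_sum, Polynomial.map_mul, map_C, Polynomial.map_pow, map_X]

theorem vec_coeff {A : Type} [CommRing A] {s N : ℕ} (x : Unk s N → A) (a : Fin 5) (j : Fin s)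
    (i : ℕ) : (vec x a j).coeff i = if hi : i < N + 1 then x (Sum.inl (a, j, ⟨i, hi⟩)) else 0 := by
  simp only [vec, finset_sum_coeff, coeff_C_mul, coeff_X_pow]
  split_ifs with hi
  · rw [Finset.sum_eq_single (⟨i, hi⟩ : Fin (N + 1))]
    · simp
    · intro b _ hb
      rw [if_neg (fun h => hb (Fin.ext h.symm)), mul_zero]
    · simp
  · refine Finset.sum_eq_zero fun b _ => ?_
    rw [if_neg (fun h => hi (by omega)), mul_zero]

/-- `η ^ l - φ' * φ ^ (l - 1)` -/
noncomputable def eqA {A : Type} [CommRing A] {s N : ℕ} (P : Fin s → Fin s → Fin s → A[X])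
    (i₀ : Fin s) (l : ℕ) (x : Unk s N → A) (j : Fin s) : A[X] :=
  powT P i₀ (vec x 2) l j - mulT P (vec x 1) (powT P i₀ (vec x 0) (l - 1)) j

/-- `A * φ + B * φ' - 1` -/
noncomputable def eqB {A : Type} [CommRing A] {s N : ℕ} (P : Fin s → Fin s → Fin s → A[X])
    (i₀ : Fin s) (x : Unk s N → A) (j : Fin s) : A[X] :=
  mulT P (vec x 3) (vec x 0) j + mulT P (vec x 4) (vec x 1) j - (Pi.single i₀ 1 : Fin s → A[X]) j

theorem eqA_map {A B : Type} [CommRing A] [CommRing B] {s N : ℕ} (ψ : A →+* B)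
    (P : Fin s → Fin s → Fin s → A[X]) (i₀ : Fin s) (l : ℕ) (x : Unk s N → A) (j : Fin s) :
    (eqA P i₀ l x j).map ψ = eqA (fun i j l => (P i j l).map ψ) i₀ l (fun u => ψ (x u)) j := by
  have h1 : ∀ a, (fun i => (vec x a i).map ψ) = vec (fun u => ψ (x u)) a :=
    fun a => funext fun i => vec_map ψ x a i
  have h2 : ∀ n, (fun i => (powT P i₀ (vec x 0) n i).map ψ)
      = powT (fun i j l => (P i j l).map ψ) i₀ (vec (fun u => ψ (x u)) 0) n := by
    intro n
    funext i
    rw [powT_map, h1]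
  rw [eqA, Polynomial.map_sub, powT_map, mulT_map, h1, h1, h2]
  rfl

theorem eqB_map {A B : Type} [CommRing A] [CommRing B] {s N : ℕ} (ψ : A →+* B)
    (P : Fin s → Fin s → Fin s → A[X]) (i₀ : Fin s) (x : Unk s N → A) (j : Fin s) :
    (eqB P i₀ x j).map ψ = eqB (fun i j l => (P i j l).map ψ) i₀ (fun u => ψ (x u)) j := by
  have h1 : ∀ a, (fun i => (vec x a i).map ψ) = vec (fun u => ψ (x u)) a :=
    fun a => funext fun i => vec_map ψ x a i
  rw [eqB, Polynomial.map_sub, Polynomial.map_add, mulT_map, mulT_map, h1, h1, h1, h1]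
  have h3 : ((Pi.single i₀ 1 : Fin s → A[X]) j).map ψ = (Pi.single i₀ 1 : Fin s → B[X]) j := by
    by_cases hj : j = i₀
    · subst hj
      simp
    · simp [Pi.single_eq_of_ne hj]
  rw [h3]
  rfl

/-- the index set of the equations -/
abbrev Eqs (s N : ℕ) : Type := (Fin s × ℕ) ⊕ (Fin s × ℕ) ⊕ (Fin s × Fin (N + 1)) ⊕ Unit

/-- the system for the leading monomial `q` of `φ` -/
noncomputable def Sys {Λ : Type} [CommRing Λ] {s : ℕ} (m : Fin s → ℕ)
    (P : Fin s → Fin s → Fin s → Λ[X]) (i₀ : Fin s) (l N : ℕ) (q : Fin s × Fin (N + 1)) :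
    Eqs s N → MvPolynomial (Unk s N) Λ
  | Sum.inl r => (eqA (fun i j l => (P i j l).map MvPolynomial.C) i₀ l MvPolynomial.X r.1).coeff r.2
  | Sum.inr (Sum.inl r) =>
      (eqB (fun i j l => (P i j l).map MvPolynomial.C) i₀ MvPolynomial.X r.1).coeff r.2
  | Sum.inr (Sum.inr (Sum.inl r)) =>
      if s * (q.2 : ℕ) + m q.1 < s * (r.2 : ℕ) + m r.1 then MvPolynomial.X (Sum.inl (0, r)) else 0
  | Sum.inr (Sum.inr (Sum.inr _)) =>
      MvPolynomial.X (Sum.inr ()) * MvPolynomial.X (Sum.inl (0, q)) - 1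

section
variable {Λ k : Type} [CommRing Λ] [Field k] {s : ℕ} {m : Fin s → ℕ}
  {P : Fin s → Fin s → Fin s → Λ[X]} {i₀ : Fin s} {l N : ℕ} {q : Fin s × Fin (N + 1)}

theorem map_comp_C (χ : Λ →+* k) (x : Unk s N → k) :
    (fun i j l => ((P i j l).map MvPolynomial.C).map (MvPolynomial.eval₂Hom χ x))
      = fun i j l => (P i j l).map χ := by
  funext i j l
  rw [Polynomial.map_map]
  congr 1
  ext a
  simp

/-- the meaning of the system -/
theorem sys_iff (χ : Λ →+* k) (x : Unk s N → k) :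
    (∀ r, MvPolynomial.eval₂ χ x (Sys m P i₀ l N q r) = 0) ↔
      (eqA (fun i j l => (P i j l).map χ) i₀ l x = 0 ∧
        eqB (fun i j l => (P i j l).map χ) i₀ x = 0 ∧
        (∀ r : Fin s × Fin (N + 1), s * (q.2 : ℕ) + m q.1 < s * (r.2 : ℕ) + m r.1 →
          x (Sum.inl (0, r)) = 0) ∧ x (Sum.inr ()) * x (Sum.inl (0, q)) = 1) := by
  have hX : (fun u : Unk s N => MvPolynomial.eval₂Hom χ x (MvPolynomial.X u)) = x := by
    funext u
    simp
  have hA : ∀ r : Fin s × ℕ, MvPolynomial.eval₂ χ x (Sys m P i₀ l N q (Sum.inl r))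
      = (eqA (fun i j l => (P i j l).map χ) i₀ l x r.1).coeff r.2 := by
    intro r
    rw [← MvPolynomial.coe_eval₂Hom]
    simp only [Sys]
    rw [← coeff_map, eqA_map, map_comp_C, hX]
  have hB : ∀ r : Fin s × ℕ, MvPolynomial.eval₂ χ x (Sys m P i₀ l N q (Sum.inr (Sum.inl r)))
      = (eqB (fun i j l => (P i j l).map χ) i₀ x r.1).coeff r.2 := by
    intro r
    rw [← MvPolynomial.coe_eval₂Hom]
    simp only [Sys]
    rw [← coeff_map, eqB_map, map_comp_C, hX]
  constructor
  · intro h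
    refine ⟨?_, ?_, ?_, ?_⟩
    · funext j
      ext i
      have := h (Sum.inl (j, i))
      rw [hA] at this
      simpa using this
    · funext j
      ext i
      have := h (Sum.inr (Sum.inl (j, i)))
      rw [hB] at this
      simpa using this
    · intro r hr
      have := h (Sum.inr (Sum.inr (Sum.inl r)))
      simp only [Sys] at this
      rw [if_pos hr] at this
      simpa using this
    · have := h (Sum.inr (Sum.inr (Sum.inr ())))
      simp only [Sys] at this
      rw [← MvPolynomial.coe_eval₂Hom, map_sub, map_mul, map_one] at this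
      simp only [MvPolynomial.coe_eval₂Hom, MvPolynomial.eval₂_X] at this
      exact sub_eq_zero.mp this
  · rintro ⟨h1, h2, h3, h4⟩ r
    rcases r with r | r | r | r
    · rw [hA, h1]
      simp
    · rw [hB, h2]
      simp
    · simp only [Sys]
      split_ifs with hr
      · simpa using h3 r hr
      · simp
    · simp only [Sys]
      rw [← MvPolynomial.coe_eval₂Hom, map_sub, map_mul, map_one]
      simp only [MvPolynomial.coe_eval₂Hom, MvPolynomial.eval₂_X]
      rw [h4, sub_self]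

end

section
variable {k R : Type} [Field k] [CommRing R] [IsDomain R] [Algebra k R] {dg : R → ℕ} {s : ℕ}
  {m : Fin s → ℕ} {P : Fin s → Fin s → Fin s → k[X]} {t : R} {e : Fin s → R} {i₀ : Fin s}
  {l N : ℕ} {q : Fin s × Fin (N + 1)}

theorem comb_eqA (ht : HasTab k t e P) (he : e i₀ = 1) (x : Unk s N → k) :
    comb k t e (eqA P i₀ l x) = comb k t e (vec x 2) ^ l
      - comb k t e (vec x 1) * comb k t e (vec x 0) ^ (l - 1) := by
  have : eqA P i₀ l x = powT P i₀ (vec x 2) l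
      - mulT P (vec x 1) (powT P i₀ (vec x 0) (l - 1)) := rfl
  rw [this, comb_sub, comb_powT ht he, comb_mulT ht, comb_powT ht he]

theorem comb_eqB (ht : HasTab k t e P) (he : e i₀ = 1) (x : Unk s N → k) :
    comb k t e (eqB P i₀ x) = comb k t e (vec x 3) * comb k t e (vec x 0)
      + comb k t e (vec x 4) * comb k t e (vec x 1) - 1 := by
  have : eqB P i₀ x = mulT P (vec x 3) (vec x 0) + mulT P (vec x 4) (vec x 1)
      - Pi.single i₀ 1 := rfl
  rw [this, comb_sub, comb_add, comb_mulT ht, comb_mulT ht, comb_single, he]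

/-- a solution gives the certificate -/
theorem cert_of_sol (h : OnePt k dg) (ht : HasTab k t e P) (he : e i₀ = 1)
    (hcd : ∀ (f : Fin s → k[X]) (N : ℕ), dg (comb k t e f) ≤ N ↔
      ∀ j r, (f j).coeff r ≠ 0 → s * r + m j ≤ N)
    {d : ℕ} (hd : d ∈ Gaps dg) (hq : s * (q.2 : ℕ) + m q.1 = l * d) (x : Unk s N → k)
    (h1 : eqA P i₀ l x = 0) (h2 : eqB P i₀ x = 0)
    (h3 : ∀ r : Fin s × Fin (N + 1), s * (q.2 : ℕ) + m q.1 < s * (r.2 : ℕ) + m r.1 →
          x (Sum.inl (0, r)) = 0) (h4 : x (Sum.inr ()) * x (Sum.inl (0, q)) = 1) :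
    ∃ φ φ' η A B : R, Cert dg l φ φ' η A B := by
  refine ⟨comb k t e (vec x 0), comb k t e (vec x 1), comb k t e (vec x 2),
    comb k t e (vec x 3), comb k t e (vec x 4), ?_, ?_, d, hd, ?_⟩
  · have := comb_eqA ht he x (l := l)
    rw [h1, comb_zero] at this
    exact (sub_eq_zero.mp this.symm)
  · have := comb_eqB ht he x
    rw [h2, comb_zero] at this
    exact (sub_eq_zero.mp this.symm)
  · have hxq : x (Sum.inl (0, q)) ≠ 0 := by
      intro h0
      rw [h0, mul_zero] at h4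
      exact zero_ne_one h4
    have hcq : (vec x 0 q.1).coeff (q.2 : ℕ) ≠ 0 := by
      rw [vec_coeff, dif_pos q.2.2]
      exact hxq
    have h5 := (hcd (vec x 0) _).1 le_rfl q.1 q.2 hcq
    have h6 : dg (comb k t e (vec x 0)) ≤ s * (q.2 : ℕ) + m q.1 := by
      rw [hcd]
      intro j i hji
      by_contra hcon
      push Not at hcon
      apply hji
      rw [vec_coeff]
      split_ifs with hi
      · exact h3 (j, ⟨i, hi⟩) hcon
      · rfl
    omega

/-- the certificate gives a solution -/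
theorem sol_of_cert (h : OnePt k dg) (ht : HasTab k t e P) (he : e i₀ = 1)
    (hcd : ∀ (f : Fin s → k[X]) (N : ℕ), dg (comb k t e f) ≤ N ↔
      ∀ j r, (f j).coeff r ≠ 0 → s * r + m j ≤ N)
    {φ φ' η A B : R} (hC : Cert dg l φ φ' η A B) (hφ : φ ≠ 0) (b0 : dg φ ≤ N) (b1 : dg φ' ≤ N)
    (b2 : dg η ≤ N) (b3 : dg A ≤ N) (b4 : dg B ≤ N) :
    ∃ (d : ℕ) (q : Fin s × Fin (N + 1)) (x : Unk s N → k), d ∈ Gaps dg ∧
      s * (q.2 : ℕ) + m q.1 = l * d ∧ eqA P i₀ l x = 0 ∧ eqB P i₀ x = 0 ∧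
      (∀ r : Fin s × Fin (N + 1), s * (q.2 : ℕ) + m q.1 < s * (r.2 : ℕ) + m r.1 →
          x (Sum.inl (0, r)) = 0) ∧ x (Sum.inr ()) * x (Sum.inl (0, q)) = 1 := by
  obtain ⟨hη, hAB, d, hd, hdφ⟩ := hC
  have hs : 0 < s := by
    by_contra h0
    have : s = 0 := by omega
    subst this
    exact i₀.elim0
  have hbd : ∀ a : R, dg a ≤ N → ∃ f : Fin s → k[X], comb k t e f = a ∧
      ∀ j i, N < i → (f j).coeff i = 0 := by
    intro a ha
    obtain ⟨f, hf⟩ := ht.bij.2 a
    refine ⟨f, hf, fun j i hi => ?_⟩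
    by_contra h0
    have h1 := (hcd f _).1 le_rfl j i h0
    rw [hf] at h1
    have h2 : i ≤ s * i := Nat.le_mul_of_pos_left i hs
    omega
  obtain ⟨f0, hf0, c0⟩ := hbd φ b0
  obtain ⟨f1, hf1, c1⟩ := hbd φ' b1
  obtain ⟨f2, hf2, c2⟩ := hbd η b2
  obtain ⟨f3, hf3, c3⟩ := hbd A b3
  obtain ⟨f4, hf4, c4⟩ := hbd B b4
  have hf0ne : f0 ≠ 0 := by
    intro h0
    rw [h0, comb_zero] at hf0
    exact hφ hf0.symm
  have hmax : ∀ j i, (f0 j).coeff i ≠ 0 → s * i + m j ≤ dg φ := by
    have := (hcd f0 _).1 le_rfl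
    rwa [hf0] at this
  obtain ⟨j, i, hji, hdji⟩ : ∃ j i, (f0 j).coeff i ≠ 0 ∧ dg φ = s * i + m j := by
    by_contra hcon
    push Not at hcon
    have h1 : ∃ j i, (f0 j).coeff i ≠ 0 := by
      by_contra h2
      push Not at h2
      apply hf0ne
      funext j
      ext i
      simpa using h2 j i
    obtain ⟨j, i, hji⟩ := h1
    have h2 := hmax j i hji
    have h3 := hcon j i hji
    have h4 : dg (comb k t e f0) ≤ dg φ - 1 := by
      rw [hcd]
      intro j' i' h5
      have h6 := hmax j' i' h5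
      have h7 := hcon j' i' h5
      omega
    rw [hf0] at h4
    omega
  have hiN : i < N + 1 := by
    by_contra hcon
    exact hji (c0 j i (by omega))
  set x : Unk s N → k := fun u => match u with
    | Sum.inl (a, j', i') => ((![f0, f1, f2, f3, f4] : Fin 5 → Fin s → k[X]) a j').coeff (i' : ℕ)
    | Sum.inr _ => ((f0 j).coeff i)⁻¹ with hx
  have hvec : ∀ (a : Fin 5) (f : Fin s → k[X]),
      (![f0, f1, f2, f3, f4] : Fin 5 → Fin s → k[X]) a = f →
      (∀ j i, N < i → (f j).coeff i = 0) → vec x a = f := by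
    intro a f haf hf
    funext j'
    ext i'
    rw [vec_coeff]
    split_ifs with hi'
    · simp only [hx, haf]
    · exact (hf j' i' (by omega)).symm
  have v0 := hvec 0 f0 rfl c0
  have v1 := hvec 1 f1 rfl c1
  have v2 := hvec 2 f2 rfl c2
  have v3 := hvec 3 f3 rfl c3
  have v4 := hvec 4 f4 rfl c4
  refine ⟨d, (j, ⟨i, hiN⟩), x, hd, ?_, ?_, ?_, ?_, ?_⟩
  · change s * i + m j = l * d
    rw [← hdji, hdφ]
  · apply ht.bij.1
    rw [comb_eqA ht he, comb_zero, v0, v1, v2, hf0, hf1, hf2, hη, sub_self]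
  · apply ht.bij.1
    rw [comb_eqB ht he, comb_zero, v0, v1, v3, v4, hf0, hf1, hf3, hf4, hAB, sub_self]
  · intro r hr
    have h1 : x (Sum.inl (0, r)) = (f0 r.1).coeff (r.2 : ℕ) := rfl
    rw [h1]
    by_contra h0
    have h2 := hmax r.1 r.2 h0
    have h3 : s * i + m j < s * (r.2 : ℕ) + m r.1 := hr
    omega
  · have h1 : x (Sum.inl (0, (j, ⟨i, hiN⟩))) = (f0 j).coeff i := rfl
    have h2 : x (Sum.inr ()) = ((f0 j).coeff i)⁻¹ := rfl
    rw [h1, h2]
    exact inv_mul_cancel₀ hji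

end

end Pool.H26.ES
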